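import Pool.Agent.Helper98.DY.G1r
import Pool.Agent.Helper97.DY.M3b
import Pool.Agent.Helper29.DY.GpA
import Pool.Agent.Helper32.DY.Gap1
import Pool.Agent.Helper62.DY.NG0

/-!
# GAP1, `h = d2`, `bO = 1/2`, `b1 ≥ 1/2`, index at least four: `G1f` (MP_d13a5e_al)

Certificate: the strip of `<t,d2>` and the strip of `e_3 = 2 b1 t + d1 + (1 + 4 b1 b2) d2` (helper97's `m3_A`,
`m3_B`); the labels `(3,5,3)`, `(3,6,3)` with index four are done by `real4`.
-/

set_option autoImplicit false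

namespace DY.G98

open Set
open Pool.Agent.Helper62.DY (RT rt_of_tri ult_low)
open Pool.Agent.Helper32.DY (fw fe fe_mem fe_z fe_n fw_two z1_nonneg z1_one fm fm_rec bf Two)
open Pool.Agent.Helper97.DY (Idx m3_A m3_B delta3 s_case)
open DY.St29 (Co opp co_of rt_sq_next)

section

variable {b1 b : ℝ} {R : ℝ → ℝ → ℝ → Prop} {κ f q1 r g x1 x2 g' x1' x2' : ℝ} {n : ℕ} {τ e s : ℝ}

theorem idx_of (C : Co b1 b (1 / 2) R κ f q1 r g x1 x2 g' x1' x2' (n + 1) τ) : Idx b κ τ r (n + 1) where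
  hs := fun i hi => by
    have := C.I.pos (i + 1) (by omega) (by omega)
    linarith only [this]
  hf := C.I.hf
  s3 := by
    rcases C.I.alt with ⟨-, h, -⟩ | ⟨-, h, -, -, -⟩
    · linarith only [h]
    · rw [h]
  hS := C.I.hS
  hd := C.I.hd
  hr := by rcases C.I.alt with ⟨-, -, h⟩ | ⟨-, -, -, -, h⟩ <;> linarith only [h]

/-- `(3,5,3)`, `(3,6,3)`, index four -/
theorem spec4 (C : Co b1 b (1 / 2) R κ f q1 r g x1 x2 g' x1' x2' (0 + 1) τ) (hb1 : b1 = 1 / 2)
    (hs : 2 * b = s) (hs0 : 0 < s) (hc : s ^ 2 = s + 1 ∨ s ^ 2 = 3) (he0 : 0 < e) (he1 : e ≤ 1)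
    (he : e ^ 2 - (2 * b1 * (s ^ 2 - 1) + s) * e + 1 = 0) (hea : -e ≤ q1 + (1 + 2 * b1 * s) * r + 2 * b1) :
    False := by
  have I := idx_of C
  have hD := delta3 C.T (by rw [hb1]) hs I
  subst hb1
  have hv := C.T.v1
  have hY := C.Y1
  have hB := C.B
  have hf := C.I.hf (0 + 1 + 2) le_rfl
  have hd := C.I.hd
  have e2 : sq b 2 = s := by rw [← hs]; show 2 * b * 1 - 0 = _; ring
  have e3 : sq b 3 = s ^ 2 - 1 := by
    rw [← hs]; show 2 * b * (2 * b * 1 - 0) - 1 = _; ring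
  have hd' : s = τ * (s ^ 2 - 1 + 1) := by
    have h1 : sq b (0 + 1 + 1) = sq b 2 := rfl
    have h2 : sq b (0 + 1 + 2) = sq b 3 := rfl
    rw [h1, h2, e2, e3] at hd
    exact hd
  have hτ : τ * s = 1 := by
    have h1 : s * (τ * s - 1) = 0 := by linear_combination -hd'
    rcases mul_eq_zero.1 h1 with h2 | h2
    · exact absurd h2 hs0.ne'
    · linarith only [h2]
  obtain ⟨Y, hYe⟩ : ∃ Y, Y = fe (1 / 2) b (1 / 2) x1 x2 g 3 := ⟨_, rfl⟩
  obtain ⟨Xx, hXe⟩ : ∃ Xx, Xx = fe (1 / 2) b (1 / 2) x1 x2 g 2 := ⟨_, rfl⟩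
  have hX2 : Xx = s * g + x1 - x2 := by
    rw [hXe, ← hs]
    show 2 * b * g + fw (1 / 2) (1 / 2) 1 * x1 - x2 = _
    have : fw (1 / 2) (1 / 2) 1 = 1 := by unfold fw; norm_num
    rw [this]
    ring
  have hfw : fw (1 / 2) (1 / 2) (0 + 1 + 2) = 1 := by unfold fw; norm_num
  have hB' : τ + fm b κ (0 + 1 + 2) ≤ Xx - b * Y - 1 / 2 * x1 := by
    rw [hYe, hXe]
    rw [hfw] at hB
    exact hB
  have hY' : 1 ≤ Y := by rw [hYe]; exact hY
  have hR : R Y x1 Xx := by
    rw [hYe, hXe]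
    rcases fe_mem C.T.h C.T.hy 2 with ⟨-, h1, -⟩ | ⟨h0, -⟩
    · exact h1
    · omega
  have hn := C.T.h.n _ _ _ hR
  have hopp : R Y ((s + 1) * Y - Xx) ((s + 1) * Y - x1) := by
    rcases opp C.T.h hR (by linarith only [hY']) (m := 1) (by
      show 2 * (1 / 2 : ℝ) * (2 * (1 / 2) * 1 - 0) - 1 = 0
      norm_num) (by
      show 2 * (1 / 2 : ℝ) * 1 - 0 = 1
      norm_num) (by norm_num) with ⟨h0, -⟩ | ⟨-, h1⟩
    · omega
    · refine h1 (s + 1) ?_
      rw [← hs]
      ring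
  obtain ⟨-, zX, zv⟩ := C.T.h.z0 hopp (by linarith only [hY'])
  have hL := real4 (s := s) (τ := τ) (e := e) (Y := Y) (v := x1) (X := Xx) hs0 hc hτ he0 he1 (by
      linear_combination he) (by rw [← hs]; linear_combination hn) (by rw [← hs]; linarith only [hf, hB']) hY' hv zX zv
  have hr1 := C.r1
  have h5 : -τ ≤ r := I.hr
  have h6 := mul_le_mul_of_nonneg_left h5 hD
  have h7 := mul_le_mul_of_nonneg_left hea (by linarith only [hv] : 0 ≤ x1)
  have h8 : τ * Xx = g + τ * x1 - τ * x2 := by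
    rw [hX2]
    linear_combination g * hτ
  rw [h8] at hL
  have h9 : x1 * (τ * s) = x1 := by rw [hτ, mul_one]
  nlinarith only [hL, hr1, h6, h7, h9]

/-- all cases -/
theorem co_f (C : Co b1 b (1 / 2) R κ f q1 r g x1 x2 g' x1' x2' (n + 1) τ) (hb1 : 1 / 2 ≤ b1)
    (hs : 2 * b = s) (hpos : ∀ i ≤ n + 3, 0 < sq b (i + 1)) (he0 : 0 < e) (he1 : e ≤ 1)
    (he : e ^ 2 - (2 * b1 * (s ^ 2 - 1) + s) * e + 1 = 0) (hea : -e ≤ q1 + (1 + 2 * b1 * s) * r + 2 * b1) :
    False := by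
  have I := idx_of C
  have e2 : sq b 2 = s := by rw [← hs]; show 2 * b * 1 - 0 = _; ring
  have e4 : sq b 4 = s ^ 3 - 2 * s := by
    rw [← hs]; show 2 * b * (2 * b * (2 * b * 1 - 0) - 1) - (2 * b * 1 - 0) = _; ring
  have e5 : sq b 5 = s ^ 4 - 3 * s ^ 2 + 1 := by
    rw [← hs]
    show 2 * b * (2 * b * (2 * b * (2 * b * 1 - 0) - 1) - (2 * b * 1 - 0)) -
      (2 * b * (2 * b * 1 - 0) - 1) = _
    ring
  have e6 : sq b 6 = s ^ 5 - 4 * s ^ 3 + 3 * s := by
    have : sq b 6 = 2 * b * sq b 5 - sq b 4 := rfl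
    rw [this, e5, e4, hs]
    ring
  have h2 : 0 < sq b 2 := hpos 1 (by omega)
  have h3 : 0 < sq b 3 := hpos 2 (by omega)
  have h4 : 0 < sq b 4 := hpos 3 (by omega)
  have hs0 : 0 < s := by rw [← e2]; exact h2
  -- the small root
  have fin : s + 1 / (2 * s) < 2 * b1 * (s ^ 2 - 1) → False := by
    intro hc
    have hi : 1 / (2 * s) * (2 * s) = 1 := by field_simp
    have hi0 : 0 < 1 / (2 * s) := by positivity
    obtain ⟨y, hy⟩ : ∃ y, y = 1 / (2 * s) := ⟨_, rfl⟩
    rw [← hy] at hc hi hi0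
    have hlt : e < y := by
      by_contra hcon
      have hcon := not_lt.1 hcon
      have h5 : y ^ 2 - (2 * b1 * (s ^ 2 - 1) + s) * y + 1 < 0 := by
        have h6 : (2 * s + y) * y < (2 * b1 * (s ^ 2 - 1) + s) * y := mul_lt_mul_of_pos_right (by linarith only [hc]) hi0
        nlinarith only [hi, h6]
      have h6 : e * (y ^ 2 - (2 * b1 * (s ^ 2 - 1) + s) * y + 1) = (e - y) * (1 - e * y) := by
        linear_combination y * he
      have h7 : (e - y) * (1 - e * y) < 0 := by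
        rw [← h6]
        exact mul_neg_of_pos_of_neg he0 h5
      have h8 : y ≤ 1 := by linarith only [he1, hcon]
      have h9 : 0 ≤ (e - y) * (1 - e * y) := by
        apply mul_nonneg (by linarith only [hcon])
        nlinarith only [he0, he1, h8]
      linarith only [h7, h9]
    refine m3_A C.T hb1 hs I C.r1 C.r0 ?_
    rw [← hy]
    linarith only [hea, hlt]
  have hb1s := C.T.h.swap0.bOs
  rcases s_case C.T.h hs h2 h3 h4.le with hc | hc | hc
  · rw [e4] at h4
    have : s ^ 3 - 2 * s = s * (s ^ 2 - 2) := by ring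
    rw [this, hc] at h4
    norm_num at h4
  · -- `m2 = 5`
    have hs1 : 1.618 < s := by nlinarith only [hs0, hc]
    have hs2 : s < 1.6181 := by nlinarith only [hc]
    rcases hb1s with h5 | h5 | h5
    · linarith only [hb1, h5]
    · rcases Nat.eq_zero_or_pos n with h6 | h6
      · subst h6
        exact spec4 C (by linarith only [h5]) hs hs0 (Or.inl hc) he0 he1 he hea
      · have h7 := hpos 4 (by omega)
        have h8 : sq b (4 + 1) = sq b 5 := rfl
        rw [h8, e5] at h7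
        have h9 : s ^ 4 - 3 * s ^ 2 + 1 = (s ^ 2 + s - 1) * (s ^ 2 - (s + 1)) := by ring
        rw [h9, hc] at h7
        norm_num at h7
    · apply fin
      have h6 : 1.414 < 2 * b1 := by nlinarith only [hb1, h5]
      have h7 : 1 / (2 * s) < 0.31 := by
        rw [div_lt_iff₀ (by linarith only [hs1])]
        linarith only [hs1]
      rw [hc]
      nlinarith only [hs1, h6, h7]
  · rcases hc.eq_or_lt with hc | hc
    · have hs1 : 1.732 < s := by nlinarith only [hs0, hc]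
      have hs2 : s < 1.7321 := by nlinarith only [hc]
      rcases hb1s with h5 | h5 | h5
      · linarith only [hb1, h5]
      · rcases Nat.lt_or_ge n 2 with h6 | h6
        · rcases Nat.eq_zero_or_pos n with h7 | h7
          · subst h7
            exact spec4 C (by linarith only [h5]) hs hs0 (Or.inr hc.symm) he0 he1 he hea
          · have h8 : n = 1 := by omega
            subst h8
            refine m3_B (Or.inl rfl) C.T hb1 hs (by linarith only [hc]) I C.r1 C.r0 ?_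
            have h9 : 0.57 < 1 / s := by
              rw [lt_div_iff₀ hs0]
              linarith only [hs2]
            have h10 : e ≤ 0.3 := by
              refine small_le he0 he1 he ?_
              rw [← hc, h5]
              linarith only [hs1]
            linarith only [hea, h9, h10]
        · have h7 := hpos 5 (by omega)
          have h8 : sq b (5 + 1) = sq b 6 := rfl
          rw [h8, e6] at h7
          have h9 : s ^ 5 - 4 * s ^ 3 + 3 * s = s * (s ^ 2 - 1) * (s ^ 2 - 3) := by ring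
          rw [h9, ← hc] at h7
          norm_num at h7
      · apply fin
        have h6 : 1.414 < 2 * b1 := by nlinarith only [hb1, h5]
        have h7 : 1 / (2 * s) < 0.31 := by
          rw [div_lt_iff₀ (by linarith only [hs1])]
          linarith only [hs1]
        rw [← hc]
        linarith only [hs2, h6, h7]
    · apply fin
      have h5 : 0 < sq b 5 := by
        rw [e5]
        have : s ^ 4 - 3 * s ^ 2 + 1 = s ^ 2 * (s ^ 2 - 3) + 1 := by ring
        rw [this]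
        have := mul_pos (by positivity : 0 < s ^ 2) (by linarith only [hc] : 0 < s ^ 2 - 3)
        linarith only [this]
      have h9 : s ^ 5 - 4 * s ^ 3 + 3 * s = s * (s ^ 2 - 1) * (s ^ 2 - 3) := by ring
      have hs3 : 1.73 < s := by nlinarith only [hs0, hc]
      have h6 : 1 ≤ s * (s ^ 2 - 1) * (s ^ 2 - 3) := by
        rcases rt_sq_next C.T.h h5 with h7 | h7
        · exfalso
          have h8 : sq b (5 + 1) = sq b 6 := rfl
          rw [h8, e6, h9] at h7
          have := mul_pos (mul_pos hs0 (by linarith only [hc] : 0 < s ^ 2 - 1)) (by linarith only [hc] : 0 < s ^ 2 - 3)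
          linarith only [h7, this]
        · have h8 : sq b (5 + 1) = sq b 6 := rfl
          rw [h8, e6, h9] at h7
          exact h7
      have hs4 : 1.8 < s := by
        by_contra hcon
        have hcon := not_lt.1 hcon
        have k1 : s ^ 2 ≤ 3.24 := by nlinarith only [hs3, hcon]
        have k2 : s * (s ^ 2 - 1) ≤ 1.8 * 2.24 := by
          apply mul_le_mul hcon (by linarith only [k1]) (by linarith only [hc]) (by norm_num)
        have k3 : s * (s ^ 2 - 1) * (s ^ 2 - 3) ≤ 1.8 * 2.24 * 0.24 := by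
          apply mul_le_mul k2 (by linarith only [k1]) (by linarith only [hc]) (by norm_num)
        norm_num at k3
        linarith only [h6, k3]
      have h7 : 1 / (2 * s) < 0.28 := by
        rw [div_lt_iff₀ (by linarith only [hs4])]
        linarith only [hs4]
      have h8 : 1 * (s ^ 2 - 1) ≤ 2 * b1 * (s ^ 2 - 1) := mul_le_mul_of_nonneg_right (by linarith only [hb1]) (by linarith only [hc])
      nlinarith only [hs4, h7, h8]

end

section

variable {E : Type*} [AddCommGroup E] [Module ℝ E]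
variable {Ψ : Set E} {B : E →ₗ[ℝ] E →ₗ[ℝ] ℝ} {ρ φ : E →ₗ[ℝ] ℝ} {t d1 d2 x x' : E}
variable {g x1 x2 g' x1' x2' : ℝ}

/-- the strip of `e_3` -/
theorem xs_e3 (X : Xs Ψ B ρ φ t d1 d2 x x' g x1 x2 g' x1' x2') {s e : ℝ} (hs : 2 * -B t d2 = s)
    (hO : -B d1 d2 = 1 / 2) (hc : 2 ≤ 2 * -B t d1 * (s ^ 2 - 1) + s)
    (he : e ^ 2 - (2 * -B t d1 * (s ^ 2 - 1) + s) * e + 1 = 0) (he0 : 0 < e) (he1 : e ≤ 1) :
    -e ≤ ρ d1 + (1 + 2 * -B t d1 * s) * ρ d2 + 2 * -B t d1 := by
  have hT := X.L.tri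
  have hRT := rt_of_tri hT
  have hn0 := hRT.r2 _ _ _ (hRT.r0 _ _ _ hRT.e1)
  have c0 : 2 * (-B t d1) * 1 + 2 * (-B t d2) * 0 - 0 = 2 * -B t d1 := by ring
  rw [c0] at hn0
  have c1 : 2 * (-B t d2) * (2 * -B t d1) + 2 * (-B d1 d2) * 1 - 0 = 1 + 2 * -B t d1 * s := by
    rw [hO, ← hs]
    ring
  rw [c1] at hn0
  have hz := hRT.z1 hn0 one_pos
  obtain ⟨n, hne⟩ : ∃ n : E, n = (2 * -B t d1) • t + (1 : ℝ) • d1 + (1 + 2 * -B t d1 * s) • d2 :=
    ⟨_, rfl⟩
  have hnm : n ∈ Ψ := by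
    rw [hne]
    exact hn0
  have hn1 : n ≠ t := by
    intro h
    have := (hT.indep (2 * -B t d1 - 1) 1 (1 + 2 * -B t d1 * s) (by
      have e1 : (2 * -B t d1 - 1) • t + (1 : ℝ) • d1 + (1 + 2 * -B t d1 * s) • d2 =
        ((2 * -B t d1) • t + (1 : ℝ) • d1 + (1 + 2 * -B t d1 * s) • d2) - t := by module
      rw [e1, ← hne, h, sub_self])).2.1
    exact one_ne_zero this
  have hnc : n ∈ C01 t d1 d2 := ⟨2 * -B t d1, 1, 1 + 2 * -B t d1 * s, hne, hz.1, Or.inr le_rfl, hz.2.2⟩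
  have hS := X.L.str n hnm hnc hn1
  have ht1 : B t t = 1 := hT.one t hT.ha
  have e1 : -B t n = (2 * -B t d1 * (s ^ 2 - 1) + s) / 2 := by
    rw [hne]
    simp only [map_add, map_smul, smul_eq_mul]
    rw [ht1, ← hs]
    ring
  have e3 : ρ n = ρ d1 + (1 + 2 * -B t d1 * s) * ρ d2 + 2 * -B t d1 := by
    rw [hne, X.L.val_ρ]
    ring
  rw [e1] at hS
  rw [← e3]
  exact ult_low hS (by linarith only [hc]) (by linear_combination he) he0 he1

theorem g1f (Ψ : Set E) (B : E →ₗ[ℝ] E →ₗ[ℝ] ℝ) : G1f Ψ B := by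
  intro ρ φ t d1 d2 x x' g x1 x2 g' x1' x2' X hg' hb2 hbO hca hfa hz hz' hP
  obtain ⟨hb1, hO, kk, hkk, hG⟩ := hP
  obtain ⟨k, τ, C⟩ := co_of X hfa (by linarith only [hz])
  have fme : ∀ i, fm (-B t d2) (-φ d2) (i + 1) = -(sq (-B t d2) (i + 1) * φ d2 + sq (-B t d2) i) := by
    intro i
    show -φ d2 * sq (-B t d2) (i + 1) - sq (-B t d2) i = _
    ring
  -- the index
  have hk : kk = k + 2 := by
    have h1 : k + 2 < kk + 1 := by
      by_contra hcon
      have h2 := C.I.hf (kk + 1) (by omega)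
      rw [fme] at h2
      linarith only [h2, hG.hpos]
    have h2 : kk < k + 3 := by
      by_contra hcon
      have h3 := C.I.hf3
      have h4 : fm (-B t d2) (-φ d2) (k + 3) = fm (-B t d2) (-φ d2) ((k + 2) + 1) := rfl
      rw [h4, fme] at h3
      linarith only [h3, hG.hm (k + 2) (by omega)]
    omega
  obtain ⟨n, rfl⟩ : ∃ n, k = n + 1 := ⟨k - 1, by omega⟩
  obtain ⟨b1, hb1e⟩ : ∃ b1, b1 = -B t d1 := ⟨_, rfl⟩
  obtain ⟨b, hbe⟩ : ∃ b, b = -B t d2 := ⟨_, rfl⟩
  have h3 : 1 ≤ sq (-B t d2) 3 := C.I.pos 3 (by norm_num) (by omega)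
  have e3 : sq (-B t d2) 3 = (2 * -B t d2) ^ 2 - 1 := by
    show 2 * (-B t d2) * (2 * (-B t d2) * 1 - 0) - 1 = _
    ring
  have hc : 2 < 2 * -B t d1 * ((2 * -B t d2) ^ 2 - 1) + 2 * -B t d2 := by
    rw [e3] at h3
    have h4 : 1.4 < 2 * -B t d2 := by nlinarith only [hb2, h3]
    nlinarith only [hb1, h3, h4]
  obtain ⟨e, he, he0, he1⟩ := DY.St29.kinf_ex (c := (2 * -B t d1 * ((2 * -B t d2) ^ 2 - 1) + 2 * -B t d2) / 2)
    (by linarith only [hc])
  have he' : e ^ 2 - (2 * -B t d1 * ((2 * -B t d2) ^ 2 - 1) + 2 * -B t d2) * e + 1 = 0 := by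
    linear_combination he
  have hea := xs_e3 X rfl hO hc.le he' he0 he1.le
  rw [hO] at C
  have hpos : ∀ i ≤ n + 3, 0 < sq (-B t d2) (i + 1) := fun i hi => hG.hs i (by omega)
  rw [← hb1e, ← hbe] at C hea he'
  rw [← hbe] at hpos
  rw [← hb1e] at hb1
  exact co_f C hb1 rfl hpos he0 he1.le he' hea

end

end DY.G98
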