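import Mathlib

/-!
# Labels `(3,5,3)` and `(3,6,3)`, index four: the real inequality (MP_d13a5e_al)

`(Y, v, X)`: coefficients of `x_R` in the chamber `(-u_2, e_3, u_3)`, `s = 2 b2`, `B = B(x_R, u_3)`.
-/

set_option autoImplicit false

namespace DY.G98

/-- the smaller root of `e² - c2 e + 1` -/
theorem small_le {c2 e y : ℝ} (he0 : 0 < e) (he1 : e ≤ 1) (he : e ^ 2 - c2 * e + 1 = 0)
    (hy : y ^ 2 - c2 * y + 1 ≤ 0) : e ≤ y := by
  by_contra hcon
  have hcon := not_le.1 hcon
  have h1 : (e - y) * (1 - e * y) ≤ 0 := by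
    have h2 : e * (y ^ 2 - c2 * y + 1) = (e - y) * (1 - e * y) := by
      linear_combination y * he
    rw [← h2]
    exact mul_nonpos_of_nonneg_of_nonpos he0.le hy
  have h3 : 0 < (e - y) * (1 - e * y) := by
    apply mul_pos (by linarith only [hcon])
    nlinarith only [he0, he1, hcon]
  linarith only [h1, h3]

/-- a convex quadratic which is not positive at the ends of an interval -/
theorem convex_nonpos {p q r u w v : ℝ} (hp : 0 ≤ p) (hu : p * u ^ 2 + q * u + r ≤ 0)
    (hw : p * w ^ 2 + q * w + r ≤ 0) (h1 : u ≤ v) (h2 : v ≤ w) : p * v ^ 2 + q * v + r ≤ 0 := by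
  rcases h1.eq_or_lt with h3 | h3
  · rw [← h3]; exact hu
  have h4 : 0 < w - u := by linarith only [h2, h3]
  have h5 : (w - u) * (p * v ^ 2 + q * v + r) = (w - v) * (p * u ^ 2 + q * u + r) +
      (v - u) * (p * w ^ 2 + q * w + r) - p * ((w - u) * (v - u) * (w - v)) := by ring
  have h6 : (w - v) * (p * u ^ 2 + q * u + r) ≤ 0 := mul_nonpos_of_nonneg_of_nonpos (by linarith only [h2]) hu
  have h7 : (v - u) * (p * w ^ 2 + q * w + r) ≤ 0 := mul_nonpos_of_nonneg_of_nonpos (by linarith only [h3]) hw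
  have h8 : 0 ≤ p * ((w - u) * (v - u) * (w - v)) :=
    mul_nonneg hp (mul_nonneg (mul_nonneg (by linarith only [h4]) (by linarith only [h3])) (by linarith only [h2]))
  have h9 : (w - u) * (p * v ^ 2 + q * v + r) ≤ (w - u) * 0 := by
    rw [h5, mul_zero]
    linarith only [h6, h7, h8]
  exact le_of_mul_le_mul_left h9 h4

/-- the common part: `Y < M` and `B < 1` are impossible -/
theorem core4 {s τ Y v X B M : ℝ} (hτ2 : 1 / 2 < τ)
    (hn : Y ^ 2 + X ^ 2 + v ^ 2 - s * X * Y - X * v - Y * v = 1)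
    (hB : B = X - s / 2 * Y - v / 2) (hBt : τ ≤ B) (hY : 1 ≤ Y) (hv : 1 ≤ v)
    (zX : (s + 1) * Y - X = 0 ∨ 1 ≤ (s + 1) * Y - X) (zv : (s + 1) * Y - v = 0 ∨ 1 ≤ (s + 1) * Y - v)
    (hM : Y < M) (hM3 : M / 2 - τ < 1)
    (hq1 : 3 / 4 - (s / 2 + 1) * Y + (1 - s ^ 2 / 4) * Y ^ 2 ≤ 0)
    (hq2 : 3 / 4 * Y ^ 2 - ((s + 1) * 3 / 2 - (s / 2 + 1)) * Y + 3 / 4 ≤ 0) (hB1 : B < 1) : False := by
  have hB2 : B ^ 2 = 1 - (1 - s ^ 2 / 4) * Y ^ 2 - 3 / 4 * v ^ 2 + (s / 2 + 1) * Y * v := by
    rw [hB]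
    linear_combination hn
  have hB0 : 0 < B := by linarith only [hτ2, hBt]
  have hlt : 0 < 3 / 4 * v ^ 2 + (-(s / 2 + 1) * Y) * v + (1 - s ^ 2 / 4) * Y ^ 2 := by
    have : B ^ 2 < 1 := by nlinarith only [hB1, hB0]
    linarith only [hB2, this]
  rcases zv with hN | hN
  · -- `v = K Y`
    have hve : v = (s + 1) * Y := by linarith only [hN]
    have hBe : B = Y / 2 - ((s + 1) * Y - X) := by
      rw [hB, hve]
      ring
    rcases zX with h1 | h1
    · have hXe : X = (s + 1) * Y := by linarith only [h1]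
      rw [hXe, hve] at hn
      have h2 : Y ^ 2 = 1 := by linear_combination hn
      have h3 : Y = 1 := by nlinarith only [hB0, hBe, hXe, h2]
      rw [h1, h3] at hBe
      linarith only [hτ2, hBt, hBe]
    · linarith only [hBt, hM, hM3, hBe, h1]
  · have hw := convex_nonpos (p := 3 / 4) (q := -(s / 2 + 1) * Y) (r := (1 - s ^ 2 / 4) * Y ^ 2) (u := 1)
      (w := (s + 1) * Y - 1) (v := v) (by norm_num) (by linarith only [hq1]) (by
        have : 3 / 4 * ((s + 1) * Y - 1) ^ 2 + -(s / 2 + 1) * Y * ((s + 1) * Y - 1) + (1 - s ^ 2 / 4) * Y ^ 2 =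
          3 / 4 * Y ^ 2 - ((s + 1) * 3 / 2 - (s / 2 + 1)) * Y + 3 / 4 := by ring
        rw [this]
        exact hq2) hv (by linarith only [hN])
    linarith only [hlt, hw]

set_option maxHeartbeats 2000000 in
theorem real4 {s τ e Y v X : ℝ} (hs0 : 0 < s) (hc : s ^ 2 = s + 1 ∨ s ^ 2 = 3) (hτ : τ * s = 1)
    (he0 : 0 < e) (he1 : e ≤ 1) (he : e ^ 2 - (s ^ 2 + s - 1) * e + 1 = 0)
    (hn : Y ^ 2 + X ^ 2 + v ^ 2 - s * X * Y - X * v - Y * v = 1)
    (hBt : τ ≤ X - s / 2 * Y - v / 2) (hY : 1 ≤ Y) (hv : 1 ≤ v)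
    (zX : (s + 1) * Y - X = 0 ∨ 1 ≤ (s + 1) * Y - X) (zv : (s + 1) * Y - v = 0 ∨ 1 ≤ (s + 1) * Y - v) :
    1 < τ * X - e * v := by
  obtain ⟨B, hB⟩ : ∃ B, B = X - s / 2 * Y - v / 2 := ⟨_, rfl⟩
  rw [← hB] at hBt
  have hvK : v ≤ (s + 1) * Y := by rcases zv with h | h <;> linarith only [h]
  have hL : τ * X - e * v = τ * B + Y / 2 - (e - τ / 2) * v := by
    rw [hB]
    linear_combination (Y / 2) * hτ
  rw [hL]
  by_contra hcon
  have hcon := not_lt.1 hcon
  rcases hc with hc | hc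
  · have hs1 : 1.618 < s := by nlinarith only [hs0, hc]
    have hs2 : s < 1.6181 := by nlinarith only [hc]
    have ht1 : 0.618 < τ := by nlinarith only [hs0, hτ, hs2]
    have ht2 : τ < 0.6181 := by nlinarith only [hτ, hs1]
    have hee : e ≤ 0.3463 := by
      refine small_le he0 he1 he ?_
      rw [hc]
      linarith only [hs1]
    have hg : (e - τ / 2) * v ≤ 0.0373 * ((s + 1) * Y) := by
      have h1 : (e - τ / 2) * v ≤ 0.0373 * v := mul_le_mul_of_nonneg_right (by linarith only [ht1, hee]) (by linarith only [hv])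
      linarith only [hvK, h1]
    have hg2 : 0.0373 * ((s + 1) * Y) ≤ 0.0977 * Y := by
      have : 0.0373 * (s + 1) ≤ 0.0977 := by linarith only [hs2]
      nlinarith only [hY, this]
    have hB1 : B < 1 := by
      by_contra h
      have h := not_lt.1 h
      have h1 : τ * 1 ≤ τ * B := mul_le_mul_of_nonneg_left h (by linarith only [ht1])
      linarith only [hY, hcon, ht1, hg, hg2, h1]
    have hYM : Y < 1.6 := by
      have h1 : τ * τ ≤ τ * B := mul_le_mul_of_nonneg_left hBt (by linarith only [ht1])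
      have h2 : 0.618 * 0.618 ≤ τ * τ := by nlinarith only [ht1]
      norm_num at h2
      linarith only [hcon, hg, hg2, h1, h2]
    refine core4 (M := 1.6) (by linarith only [ht1]) hn hB hBt hY hv zX zv hYM (by linarith only [ht1]) ?_ ?_ hB1
    · have h1 := convex_nonpos (p := 1 - s ^ 2 / 4) (q := -(s / 2 + 1)) (r := 3 / 4) (u := 1) (w := 1.6)
        (v := Y) (by rw [hc]; linarith only [hs2]) (by rw [hc]; linarith only [hs1]) (by rw [hc]; linarith only [hs1]) hY hYM.le
      linarith only [h1]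
    · have h1 := convex_nonpos (p := 3 / 4) (q := -((s + 1) * 3 / 2 - (s / 2 + 1))) (r := 3 / 4) (u := 1)
        (w := 1.6) (v := Y) (by norm_num) (by linarith only [hs1]) (by linarith only [hs1]) hY hYM.le
      linarith only [h1]
  · have hs1 : 1.732 < s := by nlinarith only [hY, hv, hvK, hc]
    have hs2 : s < 1.7321 := by nlinarith only [hc]
    have ht1 : 0.577 < τ := by nlinarith only [hs0, hτ, hs2]
    have ht2 : τ < 0.5774 := by nlinarith only [hτ, hs1]
    have hee : e ≤ 0.2906 := by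
      refine small_le he0 he1 he ?_
      rw [hc]
      linarith only [hs1]
    have hg : (e - τ / 2) * v ≤ 0.0022 * ((s + 1) * Y) := by
      have h1 : (e - τ / 2) * v ≤ 0.0022 * v := mul_le_mul_of_nonneg_right (by linarith only [ht1, hee]) (by linarith only [hv])
      linarith only [hvK, h1]
    have hg2 : 0.0022 * ((s + 1) * Y) ≤ 0.0061 * Y := by
      have : 0.0022 * (s + 1) ≤ 0.0061 := by linarith only [hs2]
      nlinarith only [hY, this]
    have hB1 : B < 1 := by
      by_contra h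
      have h := not_lt.1 h
      have h1 : τ * 1 ≤ τ * B := mul_le_mul_of_nonneg_left h (by linarith only [ht1])
      linarith only [hY, hcon, ht1, hg, hg2, h1]
    have hYM : Y < 1.4 := by
      have h1 : τ * τ ≤ τ * B := mul_le_mul_of_nonneg_left hBt (by linarith only [ht1])
      have h2 : 0.577 * 0.577 ≤ τ * τ := by nlinarith only [ht1]
      norm_num at h2
      linarith only [hcon, hg, hg2, h1, h2]
    refine core4 (M := 1.4) (by linarith only [ht1]) hn hB hBt hY hv zX zv hYM (by linarith only [ht1]) ?_ ?_ hB1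
    · have h1 := convex_nonpos (p := 1 - s ^ 2 / 4) (q := -(s / 2 + 1)) (r := 3 / 4) (u := 1) (w := 1.4)
        (v := Y) (by rw [hc]; norm_num) (by rw [hc]; linarith only [hs1]) (by rw [hc]; linarith only [hs1]) hY hYM.le
      linarith only [h1]
    · have h1 := convex_nonpos (p := 3 / 4) (q := -((s + 1) * 3 / 2 - (s / 2 + 1))) (r := 3 / 4) (u := 1)
        (w := 1.4) (v := Y) (by norm_num) (by linarith only [hs1]) (by linarith only [hs1]) hY hYM.le
      linarith only [h1]

end DY.G98
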